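import Pool.Agent.Lib.MP_ba95e8_co.StmtDefs
import Pool.Agent.Lib.MP_ba95e8_co.DomeExists
import Pool.Agent.Lib.MP_ba95e8_co.Compose

/-!
Deltahedral domes: every triangle that can be domed is equilateral.
-/

namespace Pool.Agent.Results.MP_ba95e8_co.OnlyEquilateral

open Pool.Agent.Lib.MP_ba95e8_co

/-- Let `a, b, c` be the vertices of a triangle in three-space (not collinear). If the triangle can
be domed, i.e. it is a face of a convex polyhedron all of whose other faces are convex polyiamonds,
then it is equilateral. -/
theorem result (a b c : E3) (hT : AffineIndependent ℝ ![a, b, c])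
    (hd : CanBeDomed (convexHull ℝ {a, b, c})) : dist a b = dist b c ∧ dist b c = dist c a := by
  by_contra hne
  obtain ⟨K, b', hK⟩ := exists_dome hT hd hne
  exact Chk.no_dome hK

end Pool.Agent.Results.MP_ba95e8_co.OnlyEquilateral
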